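import Pool.Agent.Lib.MP_df87fb_al.U.Met

/-!
A partition of the group into finite connected cells whose size grows with the distance from the
identity.
-/

namespace Pool.Agent.Lib.MP_df87fb_al.U

open Relation

variable {G : Type} [Group G] {m : ℕ} {x : Fin m → G}

theorem Gen.net (hx : Gen x) (ρ : G → ℕ) : ∃ Z : Set G,
    (Z.Pairwise fun z z' => ρ z + ρ z' < wordDist x z z') ∧
      ∀ g, ∃ z ∈ Z, wordDist x g z ≤ ρ g + ρ z := by
  obtain ⟨Z, hZ⟩ := zorn_subset {Z : Set G | Z.Pairwise fun z z' => ρ z + ρ z' < wordDist x z z'}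
    (fun c hc hch => ⟨⋃₀ c, (Set.pairwise_sUnion hch.directedOn).2 fun a ha => hc ha,
      fun s hs => Set.subset_sUnion_of_mem hs⟩)
  refine ⟨Z, hZ.prop, fun g => ?_⟩
  by_contra hc
  push Not at hc
  have h1 : (insert g Z).Pairwise fun z z' => ρ z + ρ z' < wordDist x z z' := by
    refine Set.Pairwise.insert hZ.prop fun z hz _ => ⟨hc z hz, ?_⟩
    have := hc z hz
    rw [hx.symm] at this
    omega
  have h2 := hc g (hZ.le_of_ge h1 (Set.subset_insert g Z) (Set.mem_insert g Z))
  rw [wd_self] at h2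
  omega

theorem Gen.cells (hx : Gen x) (ρ : G → ℕ) : ∃ c : G → G,
    (∀ g, wordDist x g (c g) ≤ ρ g + ρ (c g)) ∧
    (∀ g a, wordDist x a (c g) ≤ ρ (c g) → c a = c g) ∧
    ∀ g, g ≠ c g → ∃ g', wordDist x g g' ≤ 1 ∧
      wordDist x g' (c g) + 1 = wordDist x g (c g) ∧ c g' = c g := by
  obtain ⟨Z, hZ, hcov⟩ := hx.net ρ
  have key : ∀ g, ∃ z ∈ Z, (∀ z' ∈ Z, wordDist x g z - ρ z ≤ wordDist x g z' - ρ z') ∧
      ∀ z' ∈ Z, wordDist x g z' - ρ z' = wordDist x g z - ρ z → ¬ WellOrderingRel z' z := by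
    intro g
    obtain ⟨z0, hz0, -⟩ := hcov g
    obtain ⟨z1, hz1, h1⟩ := (measure fun z => wordDist x g z - ρ z).wf.has_min Z ⟨z0, hz0⟩
    obtain ⟨z2, hz2, h2⟩ := (WellOrderingRel.isWellOrder (α := G)).wf.has_min
      {z ∈ Z | wordDist x g z - ρ z = wordDist x g z1 - ρ z1} ⟨z1, hz1, rfl⟩
    refine ⟨z2, hz2.1, fun z' hz' => ?_, fun z' hz' he => h2 z' ⟨hz', he.trans hz2.2⟩⟩
    rw [hz2.2]
    exact not_lt.1 (h1 z' hz')
  choose c hc1 hc2 hc3 using key
  have hball : ∀ z ∈ Z, ∀ a, wordDist x a z ≤ ρ z → c a = z := by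
    intro z hz a ha
    by_contra hne
    have h1 := hc2 a z hz
    have h2 := hZ (hc1 a) hz hne
    have h3 := hx.tri (c a) a z
    rw [hx.symm (c a) a] at h3
    simp only at h2
    omega
  refine ⟨c, fun g => ?_, fun g a => hball _ (hc1 g) a, fun g hg => ?_⟩
  · obtain ⟨z, hz, h⟩ := hcov g
    have := hc2 g z hz
    omega
  · obtain ⟨g', h1, h2⟩ := hx.step hg
    refine ⟨g', h1, h2, ?_⟩
    by_cases hin : wordDist x g' (c g) ≤ ρ (c g)
    · exact hball _ (hc1 g) g' hin
    have h3 := hc2 g' _ (hc1 g)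
    have h4 := hc2 g _ (hc1 g')
    have h5 := hx.tri g g' (c g')
    have h6 := hc3 g _ (hc1 g') (by omega)
    have h7 := hc3 g' _ (hc1 g) (by omega)
    rcases trichotomous_of (WellOrderingRel (α := G)) (c g') (c g) with h | h | h
    · exact absurd h h6
    · exact h
    · exact absurd h h7

/-- The rank of position `i` when a list of length `N` is run forward on the even positions and
back on the odd positions. -/
def zi (N i : ℕ) : ℕ := if i % 2 = 0 then i / 2 else N - 1 - i / 2

theorem zi_prev {N i : ℕ} (hi : i < N) (h0 : i ≠ 0) :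
    ∃ j < N, j ≤ i + 2 ∧ i ≤ j + 2 ∧ zi N j + 1 = zi N i := by
  unfold zi
  by_cases h : i % 2 = 0
  · refine ⟨i - 2, by omega, by omega, by omega, ?_⟩
    split_ifs <;> omega
  by_cases h2 : i + 2 < N
  · refine ⟨i + 2, h2, le_rfl, by omega, ?_⟩
    split_ifs <;> omega
  by_cases h1 : i + 1 < N
  · refine ⟨i + 1, h1, by omega, by omega, ?_⟩
    split_ifs <;> omega
  · refine ⟨i - 1, by omega, by omega, by omega, ?_⟩
    split_ifs <;> omega

theorem zi_late {N i : ℕ} (hi : i < N) : ∃ j < N, j ≤ i + 1 ∧ i ≤ j ∧ N ≤ 2 * zi N j + 1 := by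
  unfold zi
  by_cases h : i % 2 = 0
  · by_cases h1 : i + 1 < N
    · refine ⟨i + 1, h1, le_rfl, by omega, ?_⟩
      split_ifs <;> omega
    · refine ⟨i, hi, by omega, le_rfl, ?_⟩
      split_ifs
      omega
  · refine ⟨i, hi, by omega, le_rfl, ?_⟩
    split_ifs
    omega

/-- A finite connected set carries a ranking with jumps of at most six, starting at a given
point, whose second half is dense. -/
theorem Gen.rank (hx : Gen x) (D : Finset G) {u : G} (hu : u ∈ D)
    (hconn : ∀ a ∈ D, ReflTransGen (Res (fun a b => wordDist x a b ≤ 1) D) a u) :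
    ∃ k : G → ℕ, k u = 0 ∧ (∀ a ∈ D, a ≠ u → ∃ p ∈ D, wordDist x p a ≤ 6 ∧ k p + 1 = k a) ∧
      ∀ a ∈ D, ∃ b ∈ D, wordDist x b a ≤ 3 ∧ D.card ≤ 2 * k b + 1 := by
  classical
  obtain ⟨l, hn, hm, hh, -, hch⟩ := cube_list (R := fun a b => wordDist x a b ≤ 1)
    (fun a => by rw [wd_self]; exact zero_le_one) (fun a b h => by rwa [hx.symm]) _ D u rfl hu hconn
  have hlen : l.length = D.card := by
    rw [← List.toFinset_card_of_nodup hn]
    congr 1
    ext a
    rw [List.mem_toFinset, hm]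
  have h3 : ∀ i (hi : i + 1 < l.length), wordDist x l[i] l[i + 1] ≤ 3 := by
    intro i hi
    obtain ⟨c, d, h1, h2, h3⟩ := List.isChain_iff_getElem.1 hch i hi
    have h4 := hx.tri l[i] c l[i + 1]
    have h5 := hx.tri c d l[i + 1]
    omega
  have hnear : ∀ n i j (hi : i < l.length) (hj : j < l.length), i + n = j →
      wordDist x l[i] l[j] ≤ 3 * n := by
    intro n
    induction n with
    | zero => intro i j hi hj h; obtain rfl : i = j := h; rw [wd_self]
    | succ n ih =>
      intro i j hi hj h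
      subst h
      have h1 := ih i (i + n) hi (by omega) rfl
      have h2 := h3 (i + n) hj
      have h4 := hx.tri l[i] l[i + n] l[i + n + 1]
      have h5 : wordDist x l[i] l[i + n + 1] ≤ 3 * (n + 1) := by omega
      exact h5
  have hnear' : ∀ n i j (hi : i < l.length) (hj : j < l.length), j ≤ i + n → i ≤ j + n →
      wordDist x l[j] l[i] ≤ 3 * n := by
    intro n i j hi hj h1 h2
    rcases le_total i j with h | h
    · rw [hx.symm]
      exact (hnear (j - i) i j hi hj (by omega)).trans (by omega)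
    · exact (hnear (i - j) j i hj hi (by omega)).trans (by omega)
  have hu0 : l.idxOf u = 0 := by
    cases l with
    | nil => simp at hh
    | cons a l =>
      simp only [List.head?_cons, Option.some.injEq] at hh
      subst hh
      exact List.idxOf_cons_self
  refine ⟨fun a => zi l.length (l.idxOf a), by simp [hu0, zi], fun a ha hau => ?_, fun a ha => ?_⟩
  · have hi : l.idxOf a < l.length := List.idxOf_lt_length_iff.2 ((hm a).2 ha)
    have h0 : l.idxOf a ≠ 0 := fun h => hau
      ((List.idxOf_inj ((hm a).2 ha)).1 (h.trans hu0.symm))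
    obtain ⟨j, hj, h1, h2, h4⟩ := zi_prev hi h0
    refine ⟨l[j], (hm _).1 (List.getElem_mem hj), ?_, ?_⟩
    · have := hnear' 2 _ j hi hj h1 h2
      rwa [List.getElem_idxOf] at this
    · simp only [hn.idxOf_getElem j hj]
      exact h4
  · have hi : l.idxOf a < l.length := List.idxOf_lt_length_iff.2 ((hm a).2 ha)
    obtain ⟨j, hj, h1, h2, h4⟩ := zi_late hi
    refine ⟨l[j], (hm _).1 (List.getElem_mem hj), ?_, ?_⟩
    · have := hnear' 1 _ j hi hj h1 (by omega)
      rwa [List.getElem_idxOf] at this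
    · simp only [hn.idxOf_getElem j hj]
      exact hlen ▸ h4

end Pool.Agent.Lib.MP_df87fb_al.U
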