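import Pool.Agent.Lib.MP_df87fb_al.U.Main

/-!
The logarithmic rate for groups of exponential growth.
-/

namespace Pool.Agent.Lib.MP_df87fb_al.U

open Filter

theorem log_muchLess : MuchLess (fun n => Real.log ((n : ℝ) + 1)) (fun n => (n : ℝ)) := by
  obtain ⟨t, h1, h2, h3, K, M, hK, hM, h4⟩ := sqrt_muchLess
  refine ⟨t, h1, h2, h3, 2 * K, M, by omega, hM, h4.mono fun n hn => ?_⟩
  have h5 : Real.log ((n : ℝ) + 1) ≤ 2 * √(n : ℝ) := by
    have h6 : (n : ℝ) + 1 ≤ (√(n : ℝ) + 1) ^ 2 := by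
      nlinarith [Real.sq_sqrt (Nat.cast_nonneg (α := ℝ) n), Real.sqrt_nonneg (n : ℝ)]
    have h7 := Real.log_le_log (by positivity) h6
    have h8 := Real.log_le_sub_one_of_pos (x := √(n : ℝ) + 1) (by positivity)
    rw [Real.log_pow] at h7
    push_cast at h7
    linarith
  have h6 := mul_le_mul_of_nonneg_right h5 (h2 n)
  simp only at hn ⊢
  push_cast at hn ⊢
  linarith

theorem log_rate {G : Type} [Group G] {m k : ℕ} {x : Fin m → G} {y : Fin k → G}
    {L : Set (List (Fin k × Bool))} (h : Rate x (fellowFun y L))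
    (he : ∃ c : ℕ, ∀ r, 2 ^ r ≤ (wordBall x (c * r)).ncard) :
    FellowTraveler y L fun n => Real.log ((n : ℝ) + 1) := by
  obtain ⟨C, hC⟩ := h
  obtain ⟨c, hc⟩ := he
  refine ⟨fun a b h => Real.log_le_log (by positivity) (by exact_mod_cast Nat.succ_le_succ h),
    fun n => Real.log_nonneg (by linarith [Nat.cast_nonneg (α := ℝ) n]), log_muchLess,
    2 * (200 * c + C) + 1, 1, by omega, one_pos, (eventually_ge_atTop 1).mono fun n hn => ?_⟩
  obtain ⟨j, hj⟩ : ∃ j, j = Nat.log 2 (n + 1) := ⟨_, rfl⟩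
  have h1 : n + 1 < 2 ^ (j + 1) := hj ▸ Nat.lt_pow_succ_log_self one_lt_two _
  have h2 : 2 ^ j ≤ n + 1 := hj ▸ Nat.pow_log_le_self 2 (by omega)
  have h3 : 1 ≤ j := hj ▸ Nat.log_pos one_lt_two (by omega)
  have h4 := hC n (c * (j + 4)) (lt_of_lt_of_le (by rw [pow_add] at h1 ⊢; omega) (hc (j + 4)))
  have h5 : fellowFun y L n ≤ (200 * c + C) * j := by nlinarith
  have h6 : (j : ℝ) * Real.log 2 ≤ Real.log ((n : ℝ) + 1) := by
    rw [← Real.log_pow]
    exact Real.log_le_log (by positivity) (by exact_mod_cast h2)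
  have h7 : (j : ℝ) ≤ 2 * Real.log ((n : ℝ) + 1) := by
    nlinarith [Real.log_two_gt_d9, Nat.cast_nonneg (α := ℝ) j]
  have h8 : (fellowFun y L n : ℝ) ≤ (200 * c + C) * j := by exact_mod_cast h5
  have h9 : (200 * c + C : ℝ) * j ≤ (200 * c + C) * (2 * Real.log ((n : ℝ) + 1)) :=
    mul_le_mul_of_nonneg_left h7 (by positivity)
  simp only [one_mul]
  push_cast
  nlinarith [Nat.cast_nonneg (α := ℝ) j]

end Pool.Agent.Lib.MP_df87fb_al.U
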