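import Pool.Agent.Lib.MP_df87fb_al.U.Met

/-!
Either the growth is superlinear or geodesics to neighbouring points stay close.
-/

namespace Pool.Agent.Lib.MP_df87fb_al.U

variable {G : Type} [Group G] {m : ℕ} {x : Fin m → G}

/-- Three separated arms of length `M` at the identity. -/
def Tri (x : Fin m → G) (M : ℕ) : Prop := ∃ a : Fin 3 → ℕ → G,
  (∀ i s, s ≤ M → wordDist x 1 (a i s) ≤ s) ∧
  (∀ i s s', s ≤ s' → s' ≤ M → s' - s ≤ wordDist x (a i s) (a i s')) ∧
  ∀ i j s s', i ≠ j → s ≤ M → s' ≤ M → min s s' ≤ wordDist x (a i s) (a j s')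

theorem Gen.pack (hx : Gen x) {M k q : ℕ} (hT : Tri x M) (hq : q * (2 * k + 1) + k ≤ M) :
    3 * q * (wordBall x k).ncard ≤ (wordBall x M).ncard := by
  obtain ⟨a, h1, h2, h3⟩ := hT
  have hs : ∀ j : Fin q, 2 * k + 1 ≤ (j + 1) * (2 * k + 1) ∧
      (j + 1) * (2 * k + 1) + k ≤ M := fun j =>
    ⟨Nat.le_mul_of_pos_left _ (Nat.succ_pos _),
      le_trans (Nat.add_le_add_right (Nat.mul_le_mul_right _ j.2) k) hq⟩
  have hlt : ∀ i (j j' : Fin q), j < j' →
      2 * k + 1 ≤ wordDist x (a i ((j + 1) * (2 * k + 1))) (a i ((j' + 1) * (2 * k + 1))) := by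
    intro i j j' h
    have h4 : (j + 1 + 1) * (2 * k + 1) ≤ (j' + 1) * (2 * k + 1) :=
      Nat.mul_le_mul_right _ (Nat.succ_le_succ h)
    rw [Nat.add_mul (j + 1), one_mul] at h4
    have h5 := hs j'
    exact le_trans (by omega) (h2 i _ _ (by omega) (by omega))
  have e : 3 * q * (wordBall x k).ncard =
      ((Set.univ : Set (Fin 3 × Fin q)) ×ˢ wordBall x k).ncard := by
    rw [Set.ncard_prod, Set.ncard_univ]
    simp
  rw [e]
  refine Set.ncard_le_ncard_of_injOn (fun z => a z.1.1 ((z.1.2 + 1) * (2 * k + 1)) * z.2) ?_ ?_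
    (hx.ball_finite M)
  · rintro ⟨⟨i, j⟩, b⟩ ⟨-, hb⟩
    have h4 := hs j
    have h5 := h1 i ((j + 1) * (2 * k + 1)) (by omega)
    have h6 := hx.tri 1 (a i ((j + 1) * (2 * k + 1))) (a i ((j + 1) * (2 * k + 1)) * b)
    have h7 := wd_mul (x := x) (a i ((j + 1) * (2 * k + 1))) 1 b
    rw [mul_one] at h7
    have h8 : wordDist x 1 b ≤ k := hb
    change wordDist x 1 (a i ((j + 1) * (2 * k + 1)) * b) ≤ M
    omega
  · rintro ⟨⟨i, j⟩, b⟩ ⟨-, hb⟩ ⟨⟨i', j'⟩, b'⟩ ⟨-, hb'⟩ h
    simp only at h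
    have h8 : wordDist x 1 b ≤ k := hb
    have h9 : wordDist x 1 b' ≤ k := hb'
    have h4 : wordDist x (a i ((j + 1) * (2 * k + 1))) (a i' ((j' + 1) * (2 * k + 1))) ≤ 2 * k := by
      have h5 := hx.tri (a i ((j + 1) * (2 * k + 1))) (a i ((j + 1) * (2 * k + 1)) * b)
        (a i' ((j' + 1) * (2 * k + 1)))
      have h6 := wd_mul (x := x) (a i ((j + 1) * (2 * k + 1))) 1 b
      have h7 := wd_mul (x := x) (a i' ((j' + 1) * (2 * k + 1))) b' 1
      rw [mul_one] at h6 h7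
      rw [hx.symm b' 1, ← h] at h7
      omega
    have hi : i = i' := by
      by_contra hne
      have h5 := hs j
      have h6 := hs j'
      have h7 := h3 i i' ((j + 1) * (2 * k + 1)) ((j' + 1) * (2 * k + 1)) hne (by omega) (by omega)
      omega
    subst hi
    have hj : j = j' := by
      rcases lt_trichotomy j j' with h5 | h5 | h5
      · have := hlt i j j' h5
        omega
      · exact h5
      · have := hlt i j' j h5
        rw [hx.symm] at this
        omega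
    subst hj
    rw [mul_left_cancel h]

theorem Gen.superlinear (hx : Gen x) (hT : ∀ M, Tri x M) (A : ℕ) :
    ∃ R, ∀ r, R ≤ r → A * r ≤ (wordBall x r).ncard := by
  have key : ∀ A, ∃ R, ∀ r, R ≤ r → (A + 3) * r ≤ (wordBall x r).ncard := by
    intro A
    induction A with
    | zero =>
      refine ⟨0, fun r _ => le_trans ?_ (hx.pack (k := 0) (q := r) (hT r) (by omega))⟩
      have : 0 < (wordBall x 0).ncard :=
        (Set.ncard_pos (hx.ball_finite 0)).2 ⟨1, (wd_self 1).le⟩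
      exact Nat.le_mul_of_pos_right _ this
    | succ A ih =>
      obtain ⟨R, hR⟩ := ih
      obtain ⟨k, hk⟩ : ∃ k, k = R + 5 := ⟨_, rfl⟩
      refine ⟨27 * k ^ 2, fun r hr => ?_⟩
      have h1 := hR k (by omega)
      have hkr : 3 * k ≤ r := by nlinarith
      obtain ⟨q, hq⟩ : ∃ q, q = (r - k) / (2 * k + 1) := ⟨_, rfl⟩
      have h2 : q * (2 * k + 1) ≤ r - k := hq ▸ Nat.div_mul_le_self _ _
      have h3 : r - k < q * (2 * k + 1) + (2 * k + 1) := hq ▸ Nat.lt_div_mul_add (by omega)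
      have h4 := hx.pack (k := k) (q := q) (hT r) (by omega)
      have h5 : r ≤ q * (2 * k + 1) + 3 * k := by omega
      have h6 : 4 * r ≤ 9 * q * k := by
        have h7 : 4 * r * (2 * k + 1) ≤ 9 * q * k * (2 * k + 1) := by
          have h8 : 9 * k * r ≤ 9 * q * k * (2 * k + 1) + 27 * k ^ 2 := by nlinarith
          have h9 : 5 * r ≤ k * r := Nat.mul_le_mul_right _ (by omega)
          nlinarith
        exact Nat.le_of_mul_le_mul_right h7 (by omega)
      have h7 : 3 * q * ((A + 3) * k) ≤ (wordBall x r).ncard :=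
        le_trans (Nat.mul_le_mul_left _ h1) h4
      have h8 : A * (4 * r) ≤ A * (9 * q * k) := Nat.mul_le_mul_left _ h6
      nlinarith
  obtain ⟨R, hR⟩ := key A
  exact ⟨R, fun r hr => le_trans (Nat.mul_le_mul_right _ (by omega)) (hR r hr)⟩

theorem Gen.near_line (hx : Gen x) {M n : ℕ} (hT : ¬ Tri x M) {l : ℕ → G}
    (hl : ∀ i j, i ≤ j → j ≤ 2 * n → wordDist x (l i) (l j) = j - i) (h1 : l n = 1) {z : G}
    (hz : 2 * wordDist x 1 z + M ≤ n) : ∃ j ≤ 2 * n, wordDist x z (l j) ≤ M := by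
  obtain ⟨j, hj, hmin⟩ := (Finset.range (2 * n + 1)).exists_min_image
    (fun j => wordDist x (l j) z) ⟨0, by simp⟩
  simp only [Finset.mem_range] at hj hmin
  refine ⟨j, by omega, ?_⟩
  rw [hx.symm]
  by_contra hc
  have h2 := hmin n (by omega)
  rw [h1] at h2
  have h3 := hx.tri 1 z (l j)
  rw [hx.symm z] at h3
  have hjn : M ≤ j ∧ j + M ≤ 2 * n := by
    rcases le_total j n with h | h
    · have h4 := hl j n h (by omega)
      rw [h1, hx.symm] at h4
      omega
    · have h4 := hl n j h (by omega)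
      rw [h1] at h4
      omega
  obtain ⟨v, hv, rfl⟩ := hx.geo (l j) z
  have hy : ∀ s ≤ M, ∀ i ≤ 2 * n, s ≤ wordDist x (l i) (l j * evalWord x (v.take s)) := by
    intro s hs i hi
    have h4 := hmin i (by omega)
    have h5 := hx.tri (l i) (l j * evalWord x (v.take s)) (l j * evalWord x v)
    have h6 := wd_take (x := x) (l j) v (s := s) (t := v.length) (by omega)
    rw [List.take_length] at h6
    omega
  have h0 : ∀ g, wordDist x 1 ((l j)⁻¹ * g) = wordDist x (l j) g := fun g => by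
    rw [← wd_mul (l j)⁻¹ (l j) g, inv_mul_cancel]
  refine hT ⟨![fun s => (l j)⁻¹ * l (j + s), fun s => (l j)⁻¹ * l (j - s),
    fun s => (l j)⁻¹ * (l j * evalWord x (v.take s))], fun i s hs => ?_, fun i s s' h hs => ?_,
    fun i i' s s' hne hs hs' => ?_⟩
  · fin_cases i
    · change wordDist x 1 ((l j)⁻¹ * l (j + s)) ≤ s
      rw [h0, hl _ _ (by omega) (by omega)]
      omega
    · change wordDist x 1 ((l j)⁻¹ * l (j - s)) ≤ s
      rw [h0, hx.symm, hl _ _ (by omega) (by omega)]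
      omega
    · change wordDist x 1 ((l j)⁻¹ * (l j * evalWord x (v.take s))) ≤ s
      have h4 := wd_take (x := x) (l j) v (Nat.zero_le s)
      rw [List.take_zero, evalWord_nil, mul_one] at h4
      rw [h0]
      exact h4
  · fin_cases i
    · change _ ≤ wordDist x ((l j)⁻¹ * l (j + s)) ((l j)⁻¹ * l (j + s'))
      rw [wd_mul, hl _ _ (by omega) (by omega)]
      omega
    · change _ ≤ wordDist x ((l j)⁻¹ * l (j - s)) ((l j)⁻¹ * l (j - s'))
      rw [wd_mul, hx.symm, hl _ _ (by omega) (by omega)]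
      omega
    · change _ ≤ wordDist x ((l j)⁻¹ * (l j * evalWord x (v.take s)))
        ((l j)⁻¹ * (l j * evalWord x (v.take s')))
      rw [wd_mul, hx.geo_take hv h (by omega)]
  · fin_cases i <;> fin_cases i'
    · exact absurd rfl hne
    · change _ ≤ wordDist x ((l j)⁻¹ * l (j + s)) ((l j)⁻¹ * l (j - s'))
      rw [wd_mul, hx.symm, hl _ _ (by omega) (by omega)]
      omega
    · change _ ≤ wordDist x ((l j)⁻¹ * l (j + s)) ((l j)⁻¹ * (l j * evalWord x (v.take s')))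
      rw [wd_mul]
      exact (min_le_right _ _).trans (hy s' hs' _ (by omega))
    · change _ ≤ wordDist x ((l j)⁻¹ * l (j - s)) ((l j)⁻¹ * l (j + s'))
      rw [wd_mul, hl _ _ (by omega) (by omega)]
      omega
    · exact absurd rfl hne
    · change _ ≤ wordDist x ((l j)⁻¹ * l (j - s)) ((l j)⁻¹ * (l j * evalWord x (v.take s')))
      rw [wd_mul]
      exact (min_le_right _ _).trans (hy s' hs' _ (by omega))
    · change _ ≤ wordDist x ((l j)⁻¹ * (l j * evalWord x (v.take s))) ((l j)⁻¹ * l (j + s'))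
      rw [wd_mul, hx.symm]
      exact (min_le_left _ _).trans (hy s hs _ (by omega))
    · change _ ≤ wordDist x ((l j)⁻¹ * (l j * evalWord x (v.take s))) ((l j)⁻¹ * l (j - s'))
      rw [wd_mul, hx.symm]
      exact (min_le_left _ _).trans (hy s hs _ (by omega))
    · exact absurd rfl hne

/-- Without large tripods, points at the same level on geodesics to neighbours are close. -/
theorem Gen.thin (hx : Gen x) {M : ℕ} (hT : ¬ Tri x M) : ∃ C, ∀ g h z z' : G,
    wordDist x g h ≤ 1 → wordDist x 1 z + wordDist x z g = wordDist x 1 g →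
    wordDist x 1 z' + wordDist x z' h = wordDist x 1 h → wordDist x 1 z = wordDist x 1 z' →
    wordDist x z z' ≤ C := by
  by_cases hb : ∃ R, ∀ g, wordDist x 1 g ≤ R
  · obtain ⟨R, hR⟩ := hb
    refine ⟨R, fun g h z z' _ _ _ _ => ?_⟩
    rw [← wd_mul z⁻¹, inv_mul_cancel]
    exact hR _
  push Not at hb
  refine ⟨4 * M + 2, fun g h z z' h1 h2 h3 h4 => ?_⟩
  obtain ⟨n, hn⟩ : ∃ n, n = 2 * (wordDist x 1 g + 1) + M := ⟨_, rfl⟩
  obtain ⟨e, he⟩ := hb (2 * n)
  obtain ⟨w, hw, rfl⟩ := hx.geo 1 e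
  obtain ⟨l, hl, hl1⟩ : ∃ l : ℕ → G,
      (∀ i j, i ≤ j → j ≤ 2 * n → wordDist x (l i) (l j) = j - i) ∧ l n = 1 :=
    ⟨fun j => (1 * evalWord x (w.take n))⁻¹ * (1 * evalWord x (w.take j)), fun i j hij hj => by
      rw [wd_mul, hx.geo_take hw hij (by omega)], inv_mul_cancel _⟩
  have h5 := hx.tri 1 g h
  have key : ∀ a b i j, i ≤ 2 * n → j ≤ 2 * n → wordDist x a (l i) ≤ M → wordDist x b (l j) ≤ M →
      (i ≤ j + wordDist x a (l i) + M + wordDist x a b ∧
        j ≤ i + wordDist x a (l i) + M + wordDist x a b) ∧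
      (wordDist x a b + i ≤ wordDist x a (l i) + M + j ∨
        wordDist x a b + j ≤ wordDist x a (l i) + M + i) := by
    intro a b i j hi hj ha hb
    have t1 := hx.tri a (l i) b
    have t2 := hx.tri (l i) (l j) b
    have t3 := hx.tri (l i) a (l j)
    have t4 := hx.tri a b (l j)
    rw [hx.symm (l j) b] at t2
    rw [hx.symm (l i) a] at t3
    rcases le_total i j with h | h
    · rw [hl i j h hj] at t2 t3
      omega
    · rw [hx.symm (l i) (l j), hl j i h hi] at t2 t3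
      omega
  obtain ⟨pg, g1, g2⟩ := hx.near_line hT hl hl1 (z := g) (by omega)
  obtain ⟨ph, k1, k2⟩ := hx.near_line hT hl hl1 (z := h) (by omega)
  obtain ⟨pz, z1, z2⟩ := hx.near_line hT hl hl1 (z := z) (by omega)
  obtain ⟨py, y1, y2⟩ := hx.near_line hT hl hl1 (z := z') (by omega)
  have h0 : wordDist x 1 (l n) = 0 := by rw [hl1, wd_self]
  have hn2 : n ≤ 2 * n := by omega
  have h00 : wordDist x 1 (l n) ≤ M := by omega
  obtain ⟨-, a1⟩ := key 1 g n pg hn2 g1 h00 g2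
  obtain ⟨-, a2⟩ := key 1 h n ph hn2 k1 h00 k2
  obtain ⟨⟨b3, c3⟩, a3⟩ := key 1 z n pz hn2 z1 h00 z2
  obtain ⟨⟨b4, c4⟩, a4⟩ := key 1 z' n py hn2 y1 h00 y2
  obtain ⟨⟨b5, c5⟩, -⟩ := key z g pz pg z1 g1 z2 g2
  obtain ⟨⟨b6, c6⟩, -⟩ := key z' h py ph y1 k1 y2 k2
  obtain ⟨⟨b7, c7⟩, -⟩ := key g h pg ph g1 k1 g2 k2
  obtain ⟨-, a8⟩ := key z z' pz py z1 y1 z2 y2
  have a9 := hx.tri z 1 z'
  rw [hx.symm z 1] at a9
  rw [h0] at a1 a2 a3 a4 b3 c3 b4 c4
  clear key hl h0 h00 hn2 hn he hw g1 k1 z1 y1 h5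
  rcases a1 with a1 | a1 <;> rcases a2 with a2 | a2 <;> rcases a3 with a3 | a3 <;>
    rcases a4 with a4 | a4 <;> rcases a8 with a8 | a8 <;> omega

end Pool.Agent.Lib.MP_df87fb_al.U
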