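import Pool.Agent.Lib.MP_df87fb_al.U.Tree
import Pool.Agent.Lib.MP_df87fb_al.U.Tripod

/-!
Normal forms with the sublinear fellow traveler property in every finitely generated group.
-/

namespace Pool.Agent.Lib.MP_df87fb_al.U

open Filter

variable {G : Type} [Group G] {m : ℕ} {x : Fin m → G}

theorem fellow_le {L : Set (List (Fin m × Bool))} {n B : ℕ}
    (h : ∀ t ≤ n, ∀ w₁ ∈ L, ∀ w₂ ∈ L, ∀ i : Fin m, evalWord x w₁ * x i = evalWord x w₂ →
      wordDist x (evalWord x (w₁.take t)) (evalWord x (w₂.take t)) ≤ B) : fellowFun x L n ≤ B := by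
  unfold fellowFun
  refine csSup_le' ?_
  rintro _ ⟨t, ht, w₁, h1, w₂, h2, i, h3, rfl⟩
  exact h t ht w₁ h1 w₂ h2 i h3

theorem wd_take_le (w : List (Fin m × Bool)) (t : ℕ) :
    wordDist x 1 (evalWord x (w.take t)) ≤ t := by
  have := wd_take (x := x) 1 w (Nat.zero_le t)
  rwa [List.take_zero, evalWord_nil, mul_one, one_mul] at this

theorem Gen.fellow_mono (hx : Gen x) (L : Set (List (Fin m × Bool))) :
    Monotone (fellowFun x L) := by
  intro n n' h
  refine fellow_le fun t ht w₁ h1 w₂ h2 i h3 => le_csSup ⟨2 * n', ?_⟩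
    ⟨t, ht.trans h, w₁, h1, w₂, h2, i, h3, rfl⟩
  rintro _ ⟨t, ht, w₁, -, w₂, -, i, -, rfl⟩
  have h4 := hx.tri (evalWord x (w₁.take t)) 1 (evalWord x (w₂.take t))
  have h5 := wd_take_le (x := x) w₁ t
  have h6 := wd_take_le (x := x) w₂ t
  rw [hx.symm _ 1] at h4
  omega

/-- A sublinear function. -/
def Subl (s : ℕ → ℕ) : Prop := ∀ B, ∃ N, ∀ n, N ≤ n → B * s n ≤ n

theorem Subl.muchLess {s : ℕ → ℕ} (hs : Subl s) :
    MuchLess (fun n => (s n : ℝ)) (fun n => (n : ℝ)) := by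
  classical
  refine ⟨fun n => (Nat.findGreatest (fun B => ∀ k, n ≤ k → B * s k ≤ k) n : ℕ),
    fun a b h => Nat.cast_le.2 (Nat.findGreatest_mono (fun B hB k hk => hB k (h.trans hk)) h),
    fun n => Nat.cast_nonneg _, ?_, 1, 1, one_pos, one_pos, Eventually.of_forall fun n => ?_⟩
  · rintro ⟨B, hB⟩
    obtain ⟨k, hk⟩ := exists_nat_gt B
    obtain ⟨N, hN⟩ := hs k
    have h1 := hB ⟨max N k, rfl⟩
    have h2 : k ≤ Nat.findGreatest (fun B => ∀ j, max N k ≤ j → B * s j ≤ j) (max N k) :=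
      Nat.le_findGreatest (le_max_right _ _) fun j hj => hN j ((le_max_left _ _).trans hj)
    have h3 := (Nat.cast_le (α := ℝ)).2 h2
    simp only at h1
    linarith
  · have h1 := Nat.findGreatest_spec (P := fun B => ∀ k, n ≤ k → B * s k ≤ k) (Nat.zero_le n)
      (fun k _ => by simp) n le_rfl
    simp only [Nat.cast_one, one_mul]
    rw [mul_comm]
    exact_mod_cast h1

theorem Gen.fellow (hx : Gen x) {L : Set (List (Fin m × Bool))} (hs : Subl (fellowFun x L)) :
    ∃ f, FellowTraveler x L f :=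
  ⟨fun n => (fellowFun x L n : ℝ), fun _ _ h => Nat.cast_le.2 (hx.fellow_mono L h),
    fun _ => Nat.cast_nonneg _, hs.muchLess, 1, 1, one_pos, one_pos,
    Eventually.of_forall fun n => by simp⟩

theorem subl_of_growth {s b : ℕ → ℕ} {C : ℕ} (hb : ∀ A, ∃ R, ∀ r, R ≤ r → A * r ≤ b r)
    (hs : ∀ n r, 2 * n + 10 < b r → s n ≤ 40 * r + C) : Subl s := by
  intro B
  obtain ⟨R, hR⟩ := hb (400 * (B + 1))
  refine ⟨80 * (B + 1) * (R + 2) + 2 * B * C + 10, fun n hn => ?_⟩
  obtain ⟨r, hr⟩ : ∃ r, r = n / (80 * (B + 1)) := ⟨_, rfl⟩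
  have h1 : r * (80 * (B + 1)) ≤ n := hr ▸ Nat.div_mul_le_self _ _
  have h2 : n < r * (80 * (B + 1)) + 80 * (B + 1) := hr ▸ Nat.lt_div_mul_add (by omega)
  have h3 : R + 2 ≤ r := by
    rw [hr, Nat.le_div_iff_mul_le (by omega), mul_comm]
    omega
  have h4 := hR r (by omega)
  have h5 : 2 * (80 * (B + 1)) ≤ r * (80 * (B + 1)) := Nat.mul_le_mul_right _ (by omega)
  have h6 := hs n r (by nlinarith)
  have h7 : B * s n ≤ B * (40 * r + C) := Nat.mul_le_mul_left _ h6
  nlinarith [Nat.zero_le (80 * (B + 1) * (R + 2))]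

theorem nf_range {W : G → List (Fin m × Bool)} (h : ∀ g, evalWord x (W g) = g) :
    IsNormalForm x (Set.range W) := by
  refine ⟨fun _ _ => trivial, ?_, fun g _ => ⟨W g, ⟨g, rfl⟩, h g⟩⟩
  rintro _ ⟨a, rfl⟩ _ ⟨b, rfl⟩ e
  rw [h, h] at e
  rw [e]

/-- The slow normal form over a family `y` in which the jumps have length at most `c`. -/
theorem Gen.slow (hx : Gen x) {k c : ℕ} {y : Fin k → G} (hc : 1 ≤ c) (hc6 : c ≤ 6)
    (hy : ∀ p g, p ≠ g → wordDist x p g ≤ 6 →
      ∃ v : List (Fin k × Bool), p * evalWord y v = g ∧ v.length ≤ c) (hY : Gen y)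
    (hle : ∀ a b, wordDist y a b ≤ wordDist x a b) :
    ∃ L : Set (List (Fin k × Bool)), IsNormalForm y L ∧
      (∀ w ∈ L, ∀ u, u <+: w → ∃ v : List (Fin k × Bool), v.length + 1 ≤ c ∧ u ++ v ∈ L) ∧
      ∀ n r, 2 * n + 10 < (wordBall x r).ncard → fellowFun y L n ≤ 40 * r + 12 := by
  obtain ⟨rk, low, h1, h2, h3⟩ := hx.slow_tree
  obtain ⟨W, w1, w2, w3, -⟩ := tree_words (x := y) rk (fun p g => low g ≤ low p + 1) hc
    fun g hg => by
      obtain ⟨p, p1, p2, p3⟩ := h2 g hg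
      obtain ⟨v, v1, v2⟩ := hy p g (fun e => lt_irrefl _ (e ▸ p2)) p1
      exact ⟨p, v, v1, v2, p2, p3⟩
  refine ⟨Set.range W, nf_range w1, ?_, fun n r hr => ?_⟩
  · rintro _ ⟨g, rfl⟩ u hu
    obtain ⟨g', v, v1, v2⟩ := w2 g u hu
    exact ⟨v, v1, g', v2.symm⟩
  have key : ∀ t ≤ n, ∀ g, wordDist y 1 (evalWord y ((W g).take t)) ≤ 20 * r + 6 := by
    intro t ht g
    obtain ⟨g', v, v1, v2⟩ := w2 g _ (List.take_prefix t (W g))
    have e1 := congrArg List.length v2
    rw [List.length_append, List.length_take] at e1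
    have e2 := w3 low h1 (fun _ _ h => h) g'
    have e3 : wordDist x 1 g' ≤ 20 * r + 1 := by
      by_contra hc
      have := h3 g' r (by omega)
      omega
    have e4 := wd_le (x := y) (evalWord y ((W g).take t)) v
    rw [← evalWord_append, v2, w1, hY.symm] at e4
    have e5 := hY.tri 1 g' (evalWord y ((W g).take t))
    have e6 := hle 1 g'
    omega
  refine fellow_le ?_
  rintro t ht _ ⟨a, rfl⟩ _ ⟨b, rfl⟩ i -
  have e1 := key t ht a
  have e2 := key t ht b
  have e3 := hY.tri (evalWord y ((W a).take t)) 1 (evalWord y ((W b).take t))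
  rw [hY.symm _ 1] at e3
  omega

/-- Without large tripods a geodesic spanning tree has bounded fellow traveler function. -/
theorem Gen.fast (hx : Gen x) {M : ℕ} (hT : ¬ Tri x M) :
    ∃ L : Set (List (Fin m × Bool)), IsNormalForm x L ∧ PrefixClosed L ∧
      ∃ C, ∀ n, fellowFun x L n ≤ C := by
  obtain ⟨C, hC⟩ := hx.thin hT
  obtain ⟨W, w1, w2, -, w4⟩ := tree_words (x := x) (wordDist x 1)
    (fun p g => wordDist x 1 p + 1 = wordDist x 1 g) le_rfl fun g hg => by
      obtain ⟨p, p1, p2⟩ := hx.step hg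
      rw [hx.symm p 1, hx.symm g 1] at p2
      obtain ⟨v, v1, v2⟩ := hx.geo p g
      exact ⟨p, v, v2, by rw [v1, hx.symm]; exact p1, by omega, p2⟩
  have hlen : ∀ g, (W g).length = wordDist x 1 (1 * evalWord x (W g)) := fun g => by
    refine le_antisymm ?_ (wd_le 1 _)
    rw [w1, one_mul]
    exact w4 _ (fun _ _ h => h.le) g
  have hsplit : ∀ g t, wordDist x 1 (evalWord x ((W g).take t)) = min t (wordDist x 1 g) ∧
      wordDist x (evalWord x ((W g).take t)) g = wordDist x 1 g - t := by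
    intro g t
    have e0 := hlen g
    rw [w1, one_mul] at e0
    rcases le_total t (W g).length with h | h
    · have e1 := hx.geo_take (hlen g) (Nat.zero_le t) h
      have e2 := hx.geo_take (hlen g) h le_rfl
      rw [List.take_zero, evalWord_nil, mul_one, one_mul] at e1
      rw [List.take_length, w1, one_mul, one_mul] at e2
      omega
    · rw [List.take_of_length_le h, w1, wd_self]
      omega
  refine ⟨Set.range W, nf_range w1, ?_, C + 3, fun n => fellow_le ?_⟩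
  · rintro _ ⟨g, rfl⟩ u hu
    obtain ⟨g', v, v1, v2⟩ := w2 g u hu
    rw [List.length_eq_zero_iff.1 (by omega : v.length = 0), List.append_nil] at v2
    exact ⟨g', v2.symm⟩
  rintro t - _ ⟨a, rfl⟩ _ ⟨b, rfl⟩ i hi
  rw [w1, w1] at hi
  have e1 : wordDist x a b ≤ 1 := hi ▸ wd_gen a i
  obtain ⟨a1, a2⟩ := hsplit a t
  obtain ⟨b1, b2⟩ := hsplit b t
  have e2 := hx.tri 1 a b
  have e3 := hx.tri 1 b a
  rw [hx.symm b a] at e3
  by_cases ht : t ≤ wordDist x 1 a ∧ t ≤ wordDist x 1 b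
  · exact (hC a b _ _ e1 (by omega) (by omega) (by omega)).trans (by omega)
  · have e4 := hx.tri (evalWord x ((W a).take t)) a (evalWord x ((W b).take t))
    have e5 := hx.tri a b (evalWord x ((W b).take t))
    rw [hx.symm b] at e5
    omega

theorem subl_of_bdd {s : ℕ → ℕ} {C : ℕ} (h : ∀ n, s n ≤ C) : Subl s := fun B =>
  ⟨B * C, fun n hn => (Nat.mul_le_mul_left _ (h n)).trans hn⟩

/-- The bound by the inverse growth function. -/
def Rate (x : Fin m → G) (s : ℕ → ℕ) : Prop :=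
  ∃ C, ∀ n r, 2 * n + 10 < (wordBall x r).ncard → s n ≤ 40 * r + C

theorem Gen.quasi (hx : Gen x) : ∃ L : Set (List (Fin m × Bool)), IsNormalForm x L ∧
    (∀ w ∈ L, ∀ u, u <+: w → ∃ v : List (Fin m × Bool), v.length ≤ 5 ∧ u ++ v ∈ L) ∧
    Subl (fellowFun x L) ∧ Rate x (fellowFun x L) := by
  by_cases hT : ∀ M, Tri x M
  · obtain ⟨L, h1, h2, h3⟩ := hx.slow (y := x) (c := 6) (by omega) le_rfl (fun p g _ h => by
      obtain ⟨v, v1, v2⟩ := hx.geo p g
      exact ⟨v, v2, v1.le.trans h⟩) hx fun _ _ => le_rfl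
    refine ⟨L, h1, fun w hw u hu => ?_, subl_of_growth (hx.superlinear hT) h3, 12, h3⟩
    obtain ⟨v, v1, v2⟩ := h2 w hw u hu
    exact ⟨v, by omega, v2⟩
  · push Not at hT
    obtain ⟨M, hM⟩ := hT
    obtain ⟨L, h1, h2, C, h3⟩ := hx.fast hM
    exact ⟨L, h1, fun w hw u hu => ⟨[], by simp, by simpa using h2 w hw u hu⟩, subl_of_bdd h3, C,
      fun n r _ => (h3 n).trans (by omega)⟩

theorem Gen.closed (hx : Gen x) : ∃ (k : ℕ) (y : Fin k → G), Gen y ∧
    ∃ L : Set (List (Fin k × Bool)), IsNormalForm y L ∧ PrefixClosed L ∧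
      Subl (fellowFun y L) ∧ Rate x (fellowFun y L) := by
  by_cases hT : ∀ M, Tri x M
  · obtain ⟨k, y, hy⟩ : ∃ (k : ℕ) (y : Fin k → G), ∀ g, wordDist x 1 g ≤ 6 → ∃ i, y i = g := by
      obtain ⟨k, f, -, hf⟩ := (hx.ball_finite 6).fin_param
      exact ⟨k, f, fun g hg => (hf.ge : wordBall x 6 ⊆ Set.range f) hg⟩
    have h6 : ∀ p g, wordDist x p g ≤ 6 →
        ∃ v : List (Fin k × Bool), p * evalWord y v = g ∧ v.length ≤ 1 := by
      intro p g h
      rw [← wd_mul p⁻¹, inv_mul_cancel] at h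
      obtain ⟨i, hi⟩ := hy _ h
      exact ⟨[(i, true)], by rw [evalWord_true, hi, mul_inv_cancel_left], le_rfl⟩
    have hlen : ∀ n g, wordDist x 1 g = n → HasLen y g n := by
      intro n
      induction n with
      | zero => intro g h; rw [← hx.eq_of_zero h]; exact HasLen.one y
      | succ n ih =>
        intro g h
        obtain ⟨p, p1, p2⟩ := hx.step (g := g) (h := 1) fun e => by rw [e, wd_self] at h; omega
        rw [hx.symm p 1, hx.symm g 1] at p2
        rw [hx.symm] at p1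
        obtain ⟨v, v1, v2⟩ := h6 p g (by omega)
        rw [← v1]
        exact (ih p (by omega)).mul ⟨v, v2, rfl⟩
    have hY : Gen y := fun g => by
      obtain ⟨w, -, hw⟩ := hlen _ g rfl
      exact ⟨w, hw⟩
    obtain ⟨L, h1, h2, h3⟩ := hx.slow (y := y) (c := 1) le_rfl (by omega) (fun p g _ => h6 p g) hY
      fun a b => by
        refine HasLen.wordDist_le (hlen _ _ ?_)
        rw [← wd_mul a⁻¹ a b, inv_mul_cancel]
    refine ⟨k, y, hY, L, h1, fun w hw u hu => ?_, subl_of_growth (hx.superlinear hT) h3, 12, h3⟩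
    obtain ⟨v, v1, v2⟩ := h2 w hw u hu
    rwa [List.length_eq_zero_iff.1 (by omega : v.length = 0), List.append_nil] at v2
  · push Not at hT
    obtain ⟨M, hM⟩ := hT
    obtain ⟨L, h1, h2, C, h3⟩ := hx.fast hM
    exact ⟨m, x, hx, L, h1, h2, subl_of_bdd h3, C, fun n r _ => (h3 n).trans (by omega)⟩

end Pool.Agent.Lib.MP_df87fb_al.U
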