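import Pool.Agent.Lib.MP_df87fb_al.Ray

/-!
The word metric.
-/

namespace Pool.Agent.Lib.MP_df87fb_al

variable {G : Type} [Group G] {m : ℕ}

/-- The ball of radius `r` about the identity in the word metric. -/
def wordBall (x : Fin m → G) (r : ℕ) : Set G := {g | wordDist x 1 g ≤ r}

namespace U

variable {x : Fin m → G}

/-- Every element is the value of a word. -/
def Gen (x : Fin m → G) : Prop := ∀ g, ∃ w, evalWord x w = g

theorem gen_of_closure (h : Subgroup.closure (Set.range x) = ⊤) : Gen x := by
  intro g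
  have hg : g ∈ Subgroup.closure (Set.range x) := h ▸ Subgroup.mem_top g
  have : ∃ n, HasLen x g n := by
    induction hg using Subgroup.closure_induction with
    | mem y hy => obtain ⟨i, rfl⟩ := hy; exact ⟨1, HasLen.gen x i⟩
    | one => exact ⟨0, HasLen.one x⟩
    | mul a b _ _ ha hb => obtain ⟨n, hn⟩ := ha; obtain ⟨k, hk⟩ := hb; exact ⟨_, hn.mul hk⟩
    | inv a _ ha => obtain ⟨n, hn⟩ := ha; exact ⟨n, hn.inv⟩
  obtain ⟨n, w, -, hw⟩ := this
  exact ⟨w, hw⟩

theorem Gen.closure (hx : Gen x) : Subgroup.closure (Set.range x) = ⊤ := by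
  rw [eq_top_iff]
  intro g _
  obtain ⟨w, hw⟩ := hx g
  exact HasLen.mem_closure ⟨w, le_rfl, hw⟩

theorem Gen.geo (hx : Gen x) (g h : G) :
    ∃ w : List (Fin m × Bool), w.length = wordDist x g h ∧ g * evalWord x w = h := by
  have : {n : ℕ | ∃ w : List (Fin m × Bool), w.length = n ∧ g * evalWord x w = h}.Nonempty := by
    obtain ⟨w, hw⟩ := hx (g⁻¹ * h)
    exact ⟨_, w, rfl, by rw [hw]; group⟩
  exact Nat.sInf_mem this

theorem wd_le (g : G) (w : List (Fin m × Bool)) :
    wordDist x g (g * evalWord x w) ≤ w.length := Nat.sInf_le ⟨w, rfl, rfl⟩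

theorem Gen.hasLen (hx : Gen x) (g h : G) : HasLen x (g⁻¹ * h) (wordDist x g h) := by
  obtain ⟨w, hw, rfl⟩ := hx.geo g h
  exact ⟨w, hw.le, by group⟩

theorem Gen.tri (hx : Gen x) (a b c : G) : wordDist x a c ≤ wordDist x a b + wordDist x b c := by
  refine HasLen.wordDist_le ?_
  have := (hx.hasLen a b).mul (hx.hasLen b c)
  rwa [mul_assoc, mul_inv_cancel_left] at this

theorem Gen.symm (hx : Gen x) (a b : G) : wordDist x a b = wordDist x b a := by
  have key : ∀ a b : G, wordDist x a b ≤ wordDist x b a := fun a b => by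
    refine HasLen.wordDist_le ?_
    have := (hx.hasLen b a).inv
    rwa [mul_inv_rev, inv_inv] at this
  exact le_antisymm (key a b) (key b a)

theorem wd_mul (g a b : G) : wordDist x (g * a) (g * b) = wordDist x a b := by
  unfold wordDist
  simp only [mul_assoc, mul_right_inj]

theorem wd_self (a : G) : wordDist x a a = 0 := by
  have := wd_le (x := x) a []
  rw [evalWord_nil, mul_one] at this
  exact Nat.le_zero.1 this

theorem Gen.eq_of_zero (hx : Gen x) {a b : G} (h : wordDist x a b = 0) : a = b := by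
  obtain ⟨w, hw, rfl⟩ := hx.geo a b
  rw [List.length_eq_zero_iff.1 (hw.trans h), evalWord_nil, mul_one]

theorem wd_take (g : G) (w : List (Fin m × Bool)) {s t : ℕ} (h : s ≤ t) :
    wordDist x (g * evalWord x (w.take s)) (g * evalWord x (w.take t)) ≤ t - s := by
  have e : w.take t = w.take s ++ (w.take t).drop s := by
    conv_lhs => rw [← List.take_append_drop s (w.take t), List.take_take, min_eq_left h]
  have := wd_le (x := x) (g * evalWord x (w.take s)) ((w.take t).drop s)
  rw [mul_assoc, ← evalWord_append, ← e] at this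
  refine this.trans ?_
  rw [List.length_drop, List.length_take]
  omega

/-- Distances along a geodesic word. -/
theorem Gen.geo_take (hx : Gen x) {g : G} {w : List (Fin m × Bool)}
    (hw : w.length = wordDist x g (g * evalWord x w)) {s t : ℕ} (h : s ≤ t) (ht : t ≤ w.length) :
    wordDist x (g * evalWord x (w.take s)) (g * evalWord x (w.take t)) = t - s := by
  have h1 := wd_take (x := x) g w h
  have h2 := wd_take (x := x) g w (Nat.zero_le s)
  have h3 := wd_take (x := x) g w ht
  rw [List.take_zero, evalWord_nil, mul_one] at h2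
  rw [List.take_length] at h3
  have h4 := hx.tri g (g * evalWord x (w.take s)) (g * evalWord x w)
  have h5 := hx.tri (g * evalWord x (w.take s)) (g * evalWord x (w.take t)) (g * evalWord x w)
  omega

theorem Gen.step (hx : Gen x) {g h : G} (hne : g ≠ h) :
    ∃ g', wordDist x g g' ≤ 1 ∧ wordDist x g' h + 1 = wordDist x g h := by
  obtain ⟨w, hw, rfl⟩ := hx.geo g h
  have h0 : wordDist x g (g * evalWord x w) ≠ 0 := fun h => hne (hx.eq_of_zero h)
  have h1 := wd_take (x := x) g w (Nat.zero_le 1)
  have h2 := hx.geo_take hw (s := 1) (t := w.length) (by omega) le_rfl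
  rw [List.take_zero, evalWord_nil, mul_one] at h1
  rw [List.take_length] at h2
  exact ⟨_, h1, by omega⟩

theorem Gen.ball_finite (hx : Gen x) (r : ℕ) : (wordBall x r).Finite := by
  refine ((List.finite_length_le (Fin m × Bool) r).image (evalWord x)).subset fun g hg => ?_
  obtain ⟨w, hw, he⟩ := hx.geo 1 g
  exact ⟨w, hw.le.trans hg, by rw [← he, one_mul]⟩

theorem Gen.ball_mono (hx : Gen x) {r s : ℕ} (h : r ≤ s) :
    (wordBall x r).ncard ≤ (wordBall x s).ncard :=
  Set.ncard_le_ncard (fun _ hg => le_trans hg h) (hx.ball_finite s)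

theorem wd_gen (g : G) (i : Fin m) : wordDist x g (g * x i) ≤ 1 := by
  have := wd_le (x := x) g [(i, true)]
  rwa [evalWord_true] at this

end U

end Pool.Agent.Lib.MP_df87fb_al
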