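import Pool.Agent.Lib.MP_df87fb_al.U.Cells

/-!
A spanning tree with bounded jumps in which elements lie deep, and the words read along a tree.
-/

namespace Pool.Agent.Lib.MP_df87fb_al.U

open Relation

variable {G : Type} [Group G] {m : ℕ} {x : Fin m → G}

theorem Gen.slow_tree (hx : Gen x) : ∃ (rk : G → ℕ ×ₗ ℕ) (low : G → ℕ), low 1 = 0 ∧
    (∀ g, g ≠ 1 → ∃ p, wordDist x p g ≤ 6 ∧ rk p < rk g ∧ low g ≤ low p + 1) ∧
    ∀ g r, 20 * r + 2 ≤ wordDist x 1 g → (wordBall x r).ncard ≤ 2 * low g := by
  classical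
  obtain ⟨c, hc1, hc2, hc3⟩ := hx.cells fun g => wordDist x 1 g / 10
  have hcc : ∀ g, c (c g) = c g := fun g => hc2 g _ (by rw [wd_self]; exact Nat.zero_le _)
  have hlen : ∀ g, 9 * wordDist x 1 g ≤ 11 * wordDist x 1 (c g) ∧
      9 * wordDist x 1 (c g) ≤ 11 * wordDist x 1 g := by
    intro g
    have h1 := hc1 g
    have h2 := hx.tri 1 g (c g)
    have h3 := hx.tri 1 (c g) g
    rw [hx.symm (c g) g] at h3
    omega
  have hfin : ∀ z, {g | c g = z}.Finite := fun z =>
    (hx.ball_finite (2 * wordDist x 1 z)).subset fun g hg => by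
      have h1 := (hlen g).1
      rw [show c g = z from hg] at h1
      change wordDist x 1 g ≤ _
      omega
  set D : G → Finset G := fun z => (hfin z).toFinset with hD
  have hmem : ∀ z g, g ∈ D z ↔ c g = z := fun z g => (hfin z).mem_toFinset
  have hstar : ∀ n g, wordDist x g (c g) = n →
      ReflTransGen (Res (fun a b => wordDist x a b ≤ 1) (D (c g))) g (c g) := by
    intro n
    induction n with
    | zero => intro g h; have e := hx.eq_of_zero h; rw [← e]
    | succ n ih =>
      intro g h
      have hg : g ≠ c g := fun e => by rw [← e, wd_self] at h; omega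
      obtain ⟨g', h1, h2, h3⟩ := hc3 g hg
      have h4 := ih g' (by rw [h3]; omega)
      rw [h3] at h4
      exact ReflTransGen.head ⟨h1, (hmem _ _).2 rfl, (hmem _ _).2 h3⟩ h4
  have hcell : ∀ z, ∃ (u : G) (k : G → ℕ), c z = z → c u = z ∧
      (∀ a, c a = z → wordDist x 1 u ≤ wordDist x 1 a) ∧ k u = 0 ∧
      (∀ a, c a = z → a ≠ u → ∃ p, c p = z ∧ wordDist x p a ≤ 6 ∧ k p + 1 = k a) ∧
      ∀ a, c a = z → ∃ b, c b = z ∧ wordDist x b a ≤ 3 ∧ (D z).card ≤ 2 * k b + 1 := by
    intro z
    by_cases hz : c z = z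
    · obtain ⟨u, hu, hmin⟩ := (D z).exists_min_image (wordDist x 1) ⟨z, (hmem _ _).2 hz⟩
      have hto : ∀ a ∈ D z, ReflTransGen (Res (fun a b => wordDist x a b ≤ 1) (D z)) a z := by
        intro a ha
        have := hstar _ a rfl
        rwa [(hmem _ _).1 ha] at this
      have hsymm : ∀ a b, ReflTransGen (Res (fun a b => wordDist x a b ≤ 1) (D z : Set G)) a b →
          ReflTransGen (Res (fun a b => wordDist x a b ≤ 1) (D z : Set G)) b a := by
        intro a b h
        induction h with
        | refl => exact ReflTransGen.refl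
        | tail _ h ih => exact ReflTransGen.head ⟨(hx.symm _ _).le.trans h.1, h.2.2, h.2.1⟩ ih
      obtain ⟨k, h0, h1, h2⟩ := hx.rank (D z) hu fun a ha =>
        (hto a ha).trans (hsymm _ _ (hto u hu))
      refine ⟨u, k, fun _ => ⟨(hmem _ _).1 hu, fun a ha => hmin a ((hmem _ _).2 ha), h0,
        fun a ha hau => ?_, fun a ha => ?_⟩⟩
      · obtain ⟨p, hp, h⟩ := h1 a ((hmem _ _).2 ha) hau
        exact ⟨p, (hmem _ _).1 hp, h⟩
      · obtain ⟨p, hp, h⟩ := h2 a ((hmem _ _).2 ha)
        exact ⟨p, (hmem _ _).1 hp, h⟩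
    · exact ⟨z, fun _ => 0, fun h => absurd h hz⟩
  choose u k hcell using hcell
  have hjoin : ∀ z, ∃ b, c z = z → u z ≠ 1 → wordDist x b (u z) ≤ 4 ∧
      wordDist x 1 (u (c b)) < wordDist x 1 (u z) ∧
      ∀ r, 11 * (10 * r + 1) ≤ 9 * wordDist x 1 (u z) →
        (wordBall x r).ncard ≤ 2 * k (c b) b + 1 := by
    intro z
    by_cases hz : c z = z ∧ u z ≠ 1
    · obtain ⟨y, h1, h2⟩ := hx.step hz.2
      rw [hx.symm y 1, hx.symm (u z) 1] at h2
      obtain ⟨-, h3, -, -, h4⟩ := hcell (c y) (hcc y)
      obtain ⟨b, hb, h5, h6⟩ := h4 y rfl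
      have h7 := h3 y rfl
      have h8 := hx.tri b y (u z)
      rw [hx.symm y (u z)] at h8
      refine ⟨b, fun _ _ => ⟨by omega, by rw [hb]; omega, fun r hr => ?_⟩⟩
      rw [hb]
      refine le_trans ?_ h6
      have h9 := (hlen y).1
      rw [← Set.ncard_coe_finset]
      refine Set.ncard_le_ncard_of_injOn (fun a => c y * a) (fun a ha => ?_)
        (fun a _ b _ h => mul_left_cancel h) (Finset.finite_toSet _)
      refine Finset.mem_coe.2 ((hmem _ _).2 (hc2 y _ ?_))
      have h10 := wd_mul (x := x) (c y) 1 a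
      rw [mul_one] at h10
      rw [hx.symm, h10]
      have h11 : wordDist x 1 a ≤ r := ha
      omega
    · exact ⟨z, fun h1 h2 => absurd ⟨h1, h2⟩ hz⟩
  choose b hjoin using hjoin
  have hu1 : u (c 1) = 1 := by
    have := (hcell (c 1) (hcc 1)).2.1 1 rfl
    rw [wd_self] at this
    exact (hx.eq_of_zero (Nat.le_zero.1 this)).symm
  refine ⟨fun g => toLex (wordDist x 1 (u (c g)), k (c g) g),
    fun g => max (k (c g) g) (if u (c g) = 1 then 0 else k (c (b (c g))) (b (c g)) + 1), ?_,
    fun g hg => ?_, fun g r hr => ?_⟩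
  · have := (hcell (c 1) (hcc 1)).2.2.1
    rw [hu1] at this
    simp only [hu1, this, if_true, max_self]
  · obtain ⟨-, -, h0, h1, -⟩ := hcell (c g) (hcc g)
    by_cases hgu : g = u (c g)
    · have hne : u (c g) ≠ 1 := hgu ▸ hg
      obtain ⟨h2, h3, -⟩ := hjoin (c g) (hcc g) hne
      refine ⟨b (c g), by rw [← hgu] at h2; omega, Prod.Lex.toLex_lt_toLex.2 (Or.inl h3), ?_⟩
      rw [← hgu] at h0
      simp only [h0, if_neg hne]
      omega
    · obtain ⟨p, hp, h2, h3⟩ := h1 g rfl hgu
      refine ⟨p, h2, Prod.Lex.toLex_lt_toLex.2 (Or.inr ⟨by simp only [hp], ?_⟩), ?_⟩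
      · simp only [hp]
        omega
      · simp only [hp]
        omega
  · have h1 := (hlen g).1
    have h2 := (hlen (u (c g))).2
    rw [(hcell (c g) (hcc g)).1] at h2
    have hne : u (c g) ≠ 1 := fun e => by rw [e, wd_self] at h2; omega
    have h3 := (hjoin (c g) (hcc g) hne).2.2 r (by omega)
    simp only [if_neg hne]
    omega

/-- The words read along a spanning tree. -/
theorem tree_words {A : Type} [LT A] [WellFoundedLT A] (rk : G → A) (Q : G → G → Prop) {c : ℕ}
    (hc : 1 ≤ c) (H : ∀ g, g ≠ 1 → ∃ (p : G) (v : List (Fin m × Bool)),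
      p * evalWord x v = g ∧ v.length ≤ c ∧ rk p < rk g ∧ Q p g) :
    ∃ W : G → List (Fin m × Bool), (∀ g, evalWord x (W g) = g) ∧
      (∀ g u, u <+: W g → ∃ g' v, v.length + 1 ≤ c ∧ u ++ v = W g') ∧
      (∀ low : G → ℕ, low 1 = 0 → (∀ p g, Q p g → low g ≤ low p + 1) →
        ∀ g, low g ≤ (W g).length) ∧
      ∀ up : G → ℕ, (∀ p g, Q p g → up p + c ≤ up g) → ∀ g, (W g).length ≤ up g := by
  classical
  choose p v hv hl hr hQ using H
  have wf : WellFounded fun a b : G => rk a < rk b := InvImage.wf rk wellFounded_lt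
  let W : G → List (Fin m × Bool) := wf.fix fun g ih =>
    if h : g = 1 then [] else ih (p g h) (hr g h) ++ v g h
  have hW : ∀ g, W g = if h : g = 1 then [] else W (p g h) ++ v g h := fun g => wf.fix_eq _ g
  have hW1 : W 1 = [] := by rw [hW, dif_pos rfl]
  have hWs : ∀ g h, W g = W (p g h) ++ v g h := fun g h => by rw [hW, dif_neg h]
  have hpos : ∀ g h, 1 ≤ (v g h).length := by
    intro g h
    by_contra h0
    have h1 := hv g h
    rw [List.length_eq_zero_iff.1 (by omega : (v g h).length = 0), evalWord_nil, mul_one] at h1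
    have h2 := hr g h
    rw [h1] at h2
    exact wf.irrefl.irrefl g h2
  refine ⟨W, fun g => ?_, fun g => ?_, fun low h1 h2 g => ?_, fun up h2 g => ?_⟩
  · induction g using wf.induction with
    | _ g ih =>
      by_cases h : g = 1
      · rw [h, hW1, evalWord_nil]
      · rw [hWs g h, evalWord_append, ih _ (hr g h), hv]
  · induction g using wf.induction with
    | _ g ih =>
      intro u hu
      by_cases h : g = 1
      · rw [h, hW1, List.prefix_nil] at hu
        exact ⟨1, [], hc, by rw [hu, hW1, List.append_nil]⟩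
      · by_cases hlen : u.length ≤ (W (p g h)).length
        · refine ih _ (hr g h) u (List.prefix_of_prefix_length_le hu ?_ hlen)
          rw [hWs g h]
          exact List.prefix_append _ _
        · obtain ⟨t, ht⟩ := hu
          refine ⟨g, t, ?_, ht⟩
          have h1 := congrArg List.length (ht.trans (hWs g h))
          have h2 := hl g h
          simp only [List.length_append] at h1
          omega
  · induction g using wf.induction with
    | _ g ih =>
      by_cases h : g = 1
      · rw [h, h1]; exact Nat.zero_le _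
      · have h3 := ih _ (hr g h)
        have h4 := h2 _ _ (hQ g h)
        have h5 := hpos g h
        rw [hWs g h, List.length_append]
        omega
  · induction g using wf.induction with
    | _ g ih =>
      by_cases h : g = 1
      · rw [h, hW1]; exact Nat.zero_le _
      · have h3 := ih _ (hr g h)
        have h4 := h2 _ _ (hQ g h)
        have h5 := hl g h
        rw [hWs g h, List.length_append]
        omega

end Pool.Agent.Lib.MP_df87fb_al.U
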